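import Pool.Agent.H73.WT.LNE
import Pool.Agent.H86.WT.MDS

/-!
# Board wit_modules, row LDV: from a common zero over the quadratic extension to a divisor of
degree two
-/

set_option autoImplicit false

open Polynomial Matrix Pool.Agent.H63.WT Pool.Agent.H73.WT

namespace Pool.Agent.H39.WT.LDV

/-- decomposition over the square root `s` -/
lemma dec {F E : Type} [Field F] [Field E] [Algebra F E] (hE : Module.finrank F E = 2) (m : F)
    (s : E) (hs : s ^ 2 = algebraMap F E m) (hm : ¬ IsSquare m) :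
    (∀ e : E, ∃ x y : F, e = algebraMap F E x + algebraMap F E y * s) ∧
      ∀ x y : F, algebraMap F E x + algebraMap F E y * s = 0 → x = 0 ∧ y = 0 := by
  have hu : ∀ x : F, algebraMap F E x ≠ s := by
    intro x hx
    apply hm
    refine ⟨x, ?_⟩
    apply (algebraMap F E).injective
    rw [← hs, ← hx, map_mul, sq]
  have hz : ∀ x y : F, algebraMap F E x + algebraMap F E y * s = 0 → x = 0 ∧ y = 0 := by
    intro x y hxy
    have hy : y = 0 := by
      by_contra hy
      have hy' : algebraMap F E y ≠ 0 := by rwa [Ne, map_eq_zero]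
      apply hu (-x / y)
      rw [map_div₀, map_neg, div_eq_iff hy']
      linear_combination -hxy
    rw [hy, map_zero, zero_mul, add_zero, map_eq_zero] at hxy
    exact ⟨hxy, hy⟩
  refine ⟨?_, hz⟩
  have hli : LinearIndependent F ![(1 : E), s] := by
    rw [LinearIndependent.pair_iff]
    intro a b hab
    rw [Algebra.smul_def, Algebra.smul_def, mul_one] at hab
    exact hz a b hab
  have hspan := hli.span_eq_top_of_card_eq_finrank (by rw [Fintype.card_fin, hE])
  intro e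
  have he : e ∈ Submodule.span F (Set.range ![(1 : E), s]) := by
    rw [hspan]; exact Submodule.mem_top
  rw [Matrix.range_cons, Matrix.range_cons, Matrix.range_empty, Set.union_empty,
    Set.singleton_union, Submodule.mem_span_pair] at he
  obtain ⟨x, y, hxy⟩ := he
  refine ⟨x, y, ?_⟩
  rw [← hxy, Algebra.smul_def, Algebra.smul_def, mul_one]

/-- a multiple of a monic quartic of degree at most four -/
lemma mult4 {F : Type} [Field F] (M0 G : F[X]) (hM : M0.Monic) (h4 : M0.natDegree = 4)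
    (hd : M0 ∣ G) (hG : G.natDegree ≤ 4) : ∃ c : F, G = C c * M0 := by
  obtain ⟨q, hq⟩ := hd
  by_cases hq0 : q = 0
  · exact ⟨0, by rw [hq, hq0, C_0]; ring⟩
  have h1 : G.natDegree = 4 + q.natDegree := by
    rw [hq, hM.natDegree_mul' hq0, h4]
  have h2 : q.natDegree = 0 := by omega
  refine ⟨q.coeff 0, ?_⟩
  rw [← eq_C_of_natDegree_eq_zero h2, hq]
  ring

/-- Euler: evaluation of a remainder at `t` -/
lemma euler {F : Type} [Field F] (M0 g : F[X]) (hM : M0.Monic) (h4 : M0.natDegree = 4) (t : F) :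
    eval t (((X - C t) * g) %ₘ M0) = - (lm M0 g * eval t M0) := by
  obtain ⟨y, hy⟩ : ∃ y, y = g %ₘ M0 := ⟨_, rfl⟩
  obtain ⟨c, hc⟩ : ∃ c, c = y.coeff 3 := ⟨_, rfl⟩
  have hlm : lm M0 g = c := by
    rw [lm_apply]
    unfold Pool.Agent.H34.N6.lam
    rw [h4, hc, hy]
  have hM1 : M0 ≠ 1 := by
    intro h
    rw [h, natDegree_one] at h4
    omega
  have hyd : y.natDegree < 4 := by
    rw [hy, ← h4]
    exact natDegree_modByMonic_lt g hM hM1
  have key : ((X - C t) * g) %ₘ M0 = (X - C t) * y - C c * M0 := by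
    have e1 : ((X - C t) * g) %ₘ M0 = ((X - C t) * y - C c * M0) %ₘ M0 := by
      apply modByMonic_eq_of_dvd_sub hM
      have : g - y = M0 * (g /ₘ M0) := by
        rw [hy]
        linear_combination -(modByMonic_add_div g M0)
      refine ⟨(X - C t) * (g /ₘ M0) + C c, ?_⟩
      linear_combination (X - C t) * this
    rw [e1]
    apply (modByMonic_eq_self_iff hM).2
    rw [degree_eq_natDegree hM.ne_zero, h4]
    rw [Polynomial.degree_lt_iff_coeff_zero]
    intro n hn
    rw [sub_mul, coeff_sub, coeff_sub, coeff_C_mul, coeff_C_mul]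
    rcases Nat.lt_or_ge 4 n with h | h
    · have a1 : (X * y).coeff n = 0 := by
        obtain ⟨n', rfl⟩ : ∃ n', n = n' + 1 := ⟨n - 1, by omega⟩
        rw [coeff_X_mul]
        exact coeff_eq_zero_of_natDegree_lt (by omega)
      have a2 : y.coeff n = 0 := coeff_eq_zero_of_natDegree_lt (by omega)
      have a3 : M0.coeff n = 0 := coeff_eq_zero_of_natDegree_lt (by omega)
      rw [a1, a2, a3]; ring
    · have hn4 : n = 4 := le_antisymm h hn
      subst hn4
      have a1 : (X * y).coeff 4 = c := by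
        rw [show (4 : ℕ) = 3 + 1 from rfl, coeff_X_mul, hc]
      have a2 : y.coeff 4 = 0 := coeff_eq_zero_of_natDegree_lt (by omega)
      have a3 : M0.coeff 4 = 1 := by
        have := hM.coeff_natDegree
        rwa [h4] at this
      rw [a1, a2, a3]; ring
  rw [key, hlm, eval_sub, eval_mul, eval_mul, eval_sub, eval_X, eval_C, eval_C]
  ring

/-- the remainder is congruent -/
lemma rem_dvd {F : Type} [Field F] (M0 g : F[X]) : M0 ∣ g - g %ₘ M0 :=
  ⟨g /ₘ M0, by linear_combination -(modByMonic_add_div g M0)⟩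

/-- the remainder has degree at most two if the functional vanishes -/
lemma rem_deg {F : Type} [Field F] (M0 g : F[X]) (hM : M0.Monic) (h4 : M0.natDegree = 4)
    (h0 : lm M0 g = 0) : (g %ₘ M0).natDegree ≤ 2 := by
  have hM1 : M0 ≠ 1 := by
    intro h
    rw [h, natDegree_one] at h4
    omega
  have hyd : (g %ₘ M0).natDegree < 4 := by
    rw [← h4]
    exact natDegree_modByMonic_lt g hM hM1
  rw [lm_apply] at h0
  unfold Pool.Agent.H34.N6.lam at h0
  rw [h4] at h0
  rw [natDegree_le_iff_coeff_eq_zero]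
  intro n hn
  rcases Nat.lt_or_ge 3 n with h | h
  · exact coeff_eq_zero_of_natDegree_lt (by omega)
  · have : n = 3 := by omega
    rw [this]
    exact h0

/-- finitely many bad parameters for one irreducible polynomial -/
lemma bad_one {F : Type} [Field F] (p A B D : F[X]) (h2 : (2 : F) ≠ 0)
    (hno : ¬ (p ∣ A ∧ p ∣ B ∧ p ∣ D)) :
    {y : F | p ∣ A + C (2 * y) * B + C (y ^ 2) * D}.Finite := by
  by_contra hinf
  apply hno
  obtain ⟨f, hf⟩ : ∃ f : Fin 3 → F, Function.Injective f ∧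
      ∀ i, p ∣ A + C (2 * f i) * B + C (f i ^ 2) * D := by
    have hI : Set.Infinite {y : F | p ∣ A + C (2 * y) * B + C (y ^ 2) * D} := hinf
    obtain ⟨t, ht, hc⟩ := hI.exists_subset_card_eq 3
    refine ⟨fun i => (t.equivFinOfCardEq hc).symm i, ?_, ?_⟩
    · intro i j hij
      exact (t.equivFinOfCardEq hc).symm.injective (Subtype.ext hij)
    · intro i
      exact ht ((t.equivFinOfCardEq hc).symm i).2
  obtain ⟨hinj, hf⟩ := hf
  obtain ⟨a, ha⟩ : ∃ a, a = f 0 := ⟨_, rfl⟩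
  obtain ⟨b, hb⟩ : ∃ b, b = f 1 := ⟨_, rfl⟩
  obtain ⟨c, hc⟩ : ∃ c, c = f 2 := ⟨_, rfl⟩
  have hab : a - b ≠ 0 := by
    rw [ha, hb, sub_ne_zero]
    intro h
    exact absurd (hinj h) (by decide)
  have hac : a - c ≠ 0 := by
    rw [ha, hc, sub_ne_zero]
    intro h
    exact absurd (hinj h) (by decide)
  have hbc : b - c ≠ 0 := by
    rw [hb, hc, sub_ne_zero]
    intro h
    exact absurd (hinj h) (by decide)
  have fa := hf 0
  have fb := hf 1
  have fc := hf 2
  rw [← ha] at fa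
  rw [← hb] at fb
  rw [← hc] at fc
  have hu : ∀ u : F, u ≠ 0 → ∀ G : F[X], p ∣ C u * G → p ∣ G := by
    intro u hu0 G hG
    have : G = C u⁻¹ * (C u * G) := by
      rw [← mul_assoc, ← C_mul, inv_mul_cancel₀ hu0, C_1, one_mul]
    rw [this]
    exact hG.mul_left _
  have d1 : p ∣ C 2 * B + C (a + b) * D := by
    apply hu (a - b) hab
    have := dvd_sub fa fb
    have e : A + C (2 * a) * B + C (a ^ 2) * D - (A + C (2 * b) * B + C (b ^ 2) * D) =
        C (a - b) * (C 2 * B + C (a + b) * D) := by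
      simp only [C_mul, C_sub, C_add, C_pow]
      ring
    rwa [e] at this
  have d2 : p ∣ C 2 * B + C (a + c) * D := by
    apply hu (a - c) hac
    have := dvd_sub fa fc
    have e : A + C (2 * a) * B + C (a ^ 2) * D - (A + C (2 * c) * B + C (c ^ 2) * D) =
        C (a - c) * (C 2 * B + C (a + c) * D) := by
      simp only [C_mul, C_sub, C_add, C_pow]
      ring
    rwa [e] at this
  have dD : p ∣ D := by
    apply hu (b - c) hbc
    have := dvd_sub d1 d2
    have e : C 2 * B + C (a + b) * D - (C 2 * B + C (a + c) * D) = C (b - c) * D := by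
      simp only [C_sub, C_add]
      ring
    rwa [e] at this
  have dB : p ∣ B := by
    apply hu 2 h2
    have := dvd_sub d1 (dD.mul_left (C (a + b)))
    rwa [add_sub_cancel_right] at this
  refine ⟨?_, dB, dD⟩
  have := dvd_sub (dvd_sub fa (dD.mul_left (C (a ^ 2)))) (dB.mul_left (C (2 * a)))
  have e : A + C (2 * a) * B + C (a ^ 2) * D - C (a ^ 2) * D - C (2 * a) * B = A := by ring
  rwa [e] at this

/-- a good parameter -/
lemma good {F : Type} [Field F] [CharZero F] (N A B D : F[X]) (hN : N ≠ 0)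
    (hno : ∀ p : F[X], Irreducible p → p ∣ N → ¬ (p ∣ A ∧ p ∣ B ∧ p ∣ D)) :
    ∃ y : F, IsCoprime (A + C (2 * y) * B + C (y ^ 2) * D) N := by
  classical
  have h2 : (2 : F) ≠ 0 := two_ne_zero
  have hfin : (⋃ p ∈ (UniqueFactorizationMonoid.normalizedFactors N).toFinset,
      {y : F | p ∣ A + C (2 * y) * B + C (y ^ 2) * D}).Finite := by
    apply Set.Finite.biUnion (Finset.finite_toSet _)
    intro p hp
    rw [Finset.mem_coe, Multiset.mem_toFinset] at hp
    have hpi := UniqueFactorizationMonoid.irreducible_of_normalized_factor p hp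
    exact bad_one p A B D h2
      (hno p hpi (UniqueFactorizationMonoid.dvd_of_mem_normalizedFactors hp))
  obtain ⟨y, hy⟩ := hfin.exists_notMem
  refine ⟨y, ?_⟩
  rw [isCoprime_comm]
  apply isCoprime_of_irreducible_dvd
  · rintro ⟨h, -⟩
    exact hN h
  · intro q hq hqN hqT
    obtain ⟨p, hp, hqp⟩ :=
      UniqueFactorizationMonoid.exists_mem_normalizedFactors_of_dvd hN hq hqN
    apply hy
    rw [Set.mem_iUnion₂]
    refine ⟨p, Multiset.mem_toFinset.2 hp, ?_⟩
    exact hqp.symm.dvd.trans hqT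

/-- the three remainders -/
lemma gram {F : Type} [Field F] (M0 k z1 z2 : F[X]) (hM : M0.Monic) (h4 : M0.natDegree = 4)
    (m t q : F) (h11 : lm M0 (k * z1 * z1) = - m * q) (h22 : lm M0 (k * z2 * z2) = q)
    (h12 : lm M0 (k * z1 * z2) = 0) (b11 : lm M0 (k * (X - C t) * z1 * z1) = 0)
    (b22 : lm M0 (k * (X - C t) * z2 * z2) = 0) (b12 : lm M0 (k * (X - C t) * z1 * z2) = 0)
    (n0 : F) (ht : eval t M0 = n0 * n0) (hn0 : n0 ≠ 0) :
    ∃ A B D : F[X], A.natDegree ≤ 2 ∧ B.natDegree ≤ 2 ∧ D.natDegree ≤ 2 ∧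
      M0 ∣ k * (X - C t) * z1 * z1 - A ∧ M0 ∣ k * (X - C t) * z1 * z2 - B ∧
      M0 ∣ k * (X - C t) * z2 * z2 - D ∧
      B ^ 2 - A * D = C ((n0 * q) ^ 2) * (C m * M0) := by
  obtain ⟨A, hA⟩ : ∃ A, A = (k * (X - C t) * z1 * z1) %ₘ M0 := ⟨_, rfl⟩
  obtain ⟨B, hB⟩ : ∃ B, B = (k * (X - C t) * z1 * z2) %ₘ M0 := ⟨_, rfl⟩
  obtain ⟨D, hD⟩ : ∃ D, D = (k * (X - C t) * z2 * z2) %ₘ M0 := ⟨_, rfl⟩
  have dA : M0 ∣ k * (X - C t) * z1 * z1 - A := by rw [hA]; exact rem_dvd _ _
  have dB : M0 ∣ k * (X - C t) * z1 * z2 - B := by rw [hB]; exact rem_dvd _ _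
  have dD : M0 ∣ k * (X - C t) * z2 * z2 - D := by rw [hD]; exact rem_dvd _ _
  have nA : A.natDegree ≤ 2 := by rw [hA]; exact rem_deg M0 _ hM h4 b11
  have nB : B.natDegree ≤ 2 := by rw [hB]; exact rem_deg M0 _ hM h4 b12
  have nD : D.natDegree ≤ 2 := by rw [hD]; exact rem_deg M0 _ hM h4 b22
  have eA : eval t A = m * q * (n0 * n0) := by
    have := euler M0 (k * z1 * z1) hM h4 t
    rw [h11, ht, show (X - C t) * (k * z1 * z1) = k * (X - C t) * z1 * z1 by ring, ← hA] at this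
    rw [this]; ring
  have eB : eval t B = 0 := by
    have := euler M0 (k * z1 * z2) hM h4 t
    rw [h12, show (X - C t) * (k * z1 * z2) = k * (X - C t) * z1 * z2 by ring, ← hB] at this
    rw [this]; ring
  have eD : eval t D = - (q * (n0 * n0)) := by
    have := euler M0 (k * z2 * z2) hM h4 t
    rw [h22, ht, show (X - C t) * (k * z2 * z2) = k * (X - C t) * z2 * z2 by ring, ← hD] at this
    rw [this]
  refine ⟨A, B, D, nA, nB, nD, dA, dB, dD, ?_⟩
  have hdiv : M0 ∣ B ^ 2 - A * D := by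
    obtain ⟨a, ha⟩ := dA
    obtain ⟨b, hb⟩ := dB
    obtain ⟨d, hd⟩ := dD
    have e1 : A = k * (X - C t) * z1 * z1 - M0 * a := by rw [← ha]; ring
    have e2 : B = k * (X - C t) * z1 * z2 - M0 * b := by rw [← hb]; ring
    have e3 : D = k * (X - C t) * z2 * z2 - M0 * d := by rw [← hd]; ring
    refine ⟨-2 * b * (k * (X - C t) * z1 * z2) + M0 * b ^ 2 + a * (k * (X - C t) * z2 * z2) +
      d * (k * (X - C t) * z1 * z1) - M0 * a * d, ?_⟩
    rw [e1, e2, e3]
    ring
  have hdeg : (B ^ 2 - A * D).natDegree ≤ 4 := by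
    refine (natDegree_sub_le _ _).trans (max_le ?_ ?_)
    · refine natDegree_pow_le.trans ?_
      omega
    · refine natDegree_mul_le.trans ?_
      omega
  obtain ⟨c, hc⟩ := mult4 M0 _ hM h4 hdiv hdeg
  have hev := congrArg (eval t) hc
  rw [eval_sub, eval_pow, eval_mul, eB, eA, eD, eval_mul, eval_C, ht] at hev
  have hcc : c = (n0 * q) ^ 2 * m := by
    have hnn : n0 * n0 ≠ 0 := mul_ne_zero hn0 hn0
    apply mul_right_cancel₀ hnn
    linear_combination -hev
  rw [hc, hcc, C_mul]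
  ring

/-- from the three remainders to the divisor -/
lemma divisor {F : Type} [Field F] [CharZero F] (M0 k z1 z2 Q A B D : F[X]) (m t n : F)
    (hM : M0.Monic) (hsep : M0.Separable) (hm : ¬ IsSquare m)
    (hrat : ∀ t : F, ¬ IsSquare (m * eval t M0)) (hQ : Q.Monic)
    (h4 : M0.natDegree = 4) (hn : n ≠ 0) (nA : A.natDegree ≤ 2) (nB : B.natDegree ≤ 2)
    (nD : D.natDegree ≤ 2) (dA : M0 ∣ k * (X - C t) * z1 * z1 - A)
    (dB : M0 ∣ k * (X - C t) * z1 * z2 - B) (dD : M0 ∣ k * (X - C t) * z2 * z2 - D)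
    (hid : B ^ 2 - A * D = C (n ^ 2) * (C m * M0)) :
    ∃ (T z : F[X]) (c : F), T.Monic ∧ T.natDegree = 2 ∧ Irreducible T ∧ c ≠ 0 ∧
      SqM T (C m * M0) ∧ IsCoprime T (Q * M0) ∧
      IsCoprime M0 z ∧ M0 ∣ C c * T - k * (X - C t) * z ^ 2 := by
  have hm0 : m ≠ 0 := by
    rintro rfl
    exact hm ⟨0, by ring⟩
  have hno : ∀ p : F[X], Irreducible p → p ∣ Q * M0 → ¬ (p ∣ A ∧ p ∣ B ∧ p ∣ D) := by
    rintro p hp - ⟨⟨a, ha⟩, ⟨b, hb⟩, ⟨d, hd⟩⟩
    have hpp : p * p ∣ C (n ^ 2) * (C m * M0) := by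
      rw [← hid, ha, hb, hd]
      exact ⟨b ^ 2 - a * d, by ring⟩
    have hpp' : p * p ∣ M0 := by
      have hu : IsUnit (C (n ^ 2) * C m : F[X]) := by
        rw [← C_mul]
        exact isUnit_C.2 (isUnit_iff_ne_zero.2 (mul_ne_zero (pow_ne_zero 2 hn) hm0))
      rw [← mul_assoc] at hpp
      exact (hu.dvd_mul_left).1 hpp
    exact hp.not_isUnit (hsep.squarefree p hpp')
  obtain ⟨y, hy⟩ := good (Q * M0) A B D (mul_ne_zero hQ.ne_zero hM.ne_zero) hno
  obtain ⟨T0, hT0⟩ : ∃ T0, T0 = A + C (2 * y) * B + C (y ^ 2) * D := ⟨_, rfl⟩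
  obtain ⟨T1, hT1⟩ : ∃ T1, T1 = B + C y * D := ⟨_, rfl⟩
  rw [← hT0] at hy
  have hid' : T1 ^ 2 - T0 * D = C (n ^ 2) * (C m * M0) := by
    rw [← hid, hT0, hT1]
    simp only [C_mul, C_pow]
    rw [show (C (2 : F) : F[X]) = 2 from rfl]
    ring
  have nT0 : T0.natDegree ≤ 2 := by
    rw [hT0]
    refine natDegree_add_le_of_degree_le (natDegree_add_le_of_degree_le nA ?_) ?_
    · exact (natDegree_C_mul_le _ _).trans nB
    · exact (natDegree_C_mul_le _ _).trans nD
  have nT1 : T1.natDegree ≤ 2 := by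
    rw [hT1]
    refine natDegree_add_le_of_degree_le nB ?_
    exact (natDegree_C_mul_le _ _).trans nD
  have hc4 : T1.coeff 2 ^ 2 - T0.coeff 2 * D.coeff 2 = n ^ 2 * m := by
    have h := congrArg (fun G => coeff G 4) hid'
    simp only [coeff_sub] at h
    rw [sq T1, show (4 : ℕ) = 2 + 2 from rfl, coeff_mul_add_eq_of_natDegree_le nT1 nT1,
      coeff_mul_add_eq_of_natDegree_le nT0 nD, coeff_C_mul, coeff_C_mul] at h
    have a3 : M0.coeff (2 + 2) = 1 := by
      have := hM.coeff_natDegree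
      rwa [h4] at this
    rw [a3] at h
    linear_combination h
  obtain ⟨a, ha⟩ : ∃ a, a = T0.coeff 2 := ⟨_, rfl⟩
  have ha0 : a ≠ 0 := by
    intro h0
    apply hm
    rw [← ha, h0] at hc4
    refine ⟨T1.coeff 2 / n, ?_⟩
    field_simp
    linear_combination -hc4
  have dT0 : T0.natDegree = 2 := by
    apply le_antisymm nT0
    apply le_natDegree_of_ne_zero
    rw [← ha]
    exact ha0
  have hroot : ∀ τ : F, eval τ T0 ≠ 0 := by
    intro τ h0
    apply hrat τ
    have h := congrArg (eval τ) hid'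
    rw [eval_sub, eval_mul, h0, eval_pow, eval_mul, eval_C, eval_mul, eval_C] at h
    refine ⟨eval τ T1 / n, ?_⟩
    field_simp
    linear_combination -h
  have hirr0 : Irreducible T0 := by
    apply irreducible_of_degree_le_three_of_not_isRoot
    · rw [dT0, Finset.mem_Icc]
      omega
    · intro τ hτ
      exact hroot τ hτ
  have hC : (C a : F[X]) * C a⁻¹ = 1 := by rw [← C_mul, mul_inv_cancel₀ ha0, C_1]
  obtain ⟨T, hT⟩ : ∃ T, T = C a⁻¹ * T0 := ⟨_, rfl⟩
  have hTT : C a * T = T0 := by rw [hT, ← mul_assoc, hC, one_mul]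
  have hass : Associated T0 T := by
    refine ⟨(isUnit_C.2 (isUnit_iff_ne_zero.2 (inv_ne_zero ha0))).unit, ?_⟩
    rw [IsUnit.unit_spec, hT]
    ring
  have hcop : IsCoprime M0 T0 := by
    have := hy.symm
    exact IsCoprime.of_mul_left_right this
  refine ⟨T, z1 + C y * z2, a, ?_, ?_, hass.irreducible hirr0, ha0, ?_, ?_, ?_, ?_⟩
  · rw [hT]
    have hl : T0.leadingCoeff = a := by rw [ha, leadingCoeff, dT0]
    rw [← hl]
    rw [mul_comm]
    exact monic_mul_leadingCoeff_inv (by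
      intro h
      rw [h, natDegree_zero] at dT0
      omega)
  · rw [hT, natDegree_C_mul (inv_ne_zero ha0), dT0]
  · refine ⟨C n⁻¹ * T1, ?_⟩
    have e : C m * M0 - (C n⁻¹ * T1) ^ 2 = T0 * (-(C (n⁻¹ ^ 2) * D)) := by
      have hnn : (C (n⁻¹ ^ 2) : F[X]) * C (n ^ 2) = 1 := by
        rw [← C_mul, ← mul_pow, inv_mul_cancel₀ hn, one_pow, C_1]
      have : C m * M0 = C (n⁻¹ ^ 2) * (T1 ^ 2 - T0 * D) := by
        rw [hid', ← mul_assoc, hnn, one_mul]
      rw [this, C_pow]
      ring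
    rw [e]
    exact hass.symm.dvd.mul_right _
  · exact IsCoprime.of_isCoprime_of_dvd_left hy hass.symm.dvd
  · obtain ⟨u, v, huv⟩ := hcop
    obtain ⟨a', ha'⟩ := dA
    obtain ⟨b', hb'⟩ := dB
    obtain ⟨d', hd'⟩ := dD
    have e1 : A = k * (X - C t) * z1 * z1 - M0 * a' := by rw [← ha']; ring
    have e2 : B = k * (X - C t) * z1 * z2 - M0 * b' := by rw [← hb']; ring
    have e3 : D = k * (X - C t) * z2 * z2 - M0 * d' := by rw [← hd']; ring
    refine ⟨u - v * (a' + C (2 * y) * b' + C (y ^ 2) * d'),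
      v * (k * (X - C t) * (z1 + C y * z2)), ?_⟩
    rw [hT0, e1, e2, e3] at huv
    rw [← huv]
    simp only [C_mul, C_pow]
    rw [show (C (2 : F) : F[X]) = 2 from rfl]
    ring
  · rw [hTT, hT0]
    have := dvd_add (dvd_add dA (dB.mul_left (C (2 * y)))) (dD.mul_left (C (y ^ 2)))
    have e : A + C (2 * y) * B + C (y ^ 2) * D - k * (X - C t) * (z1 + C y * z2) ^ 2 =
        -(k * (X - C t) * z1 * z1 - A + C (2 * y) * (k * (X - C t) * z1 * z2 - B) +
          C (y ^ 2) * (k * (X - C t) * z2 * z2 - D)) := by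
      simp only [C_mul, C_pow]
      rw [show (C (2 : F) : F[X]) = 2 from rfl]
      ring
    rw [e]
    exact (dvd_neg).2 this

end Pool.Agent.H39.WT.LDV

namespace Pool.Agent.H39.WT

open Pool.Agent.H39.WT.LDV

theorem pf_LDV (hGDT : T_GDT) (_hGMV : T_GMV) (_hSEU : T_SEU) (_hSCR : T_SCR) (hNNR : T_NNR) :
    T_LDV := by
  intro F E _ _ _ _ m s M0 k hE hs hm hM hsep h4 hck hnsq hAn hrat hN Q _ hQ
  have h2 : (2 : F) ≠ 0 := two_ne_zero
  have hm0 : m ≠ 0 := by
    rintro rfl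
    exact hm ⟨0, by ring⟩
  obtain ⟨hrep, huniq⟩ := dec hE m s hs hm
  unfold NCZ at hN
  push Not at hN
  obtain ⟨z, hz, hz0, hz1, hzne⟩ := hN
  choose c1 c2 hcc using hrep
  obtain ⟨u1, hu1⟩ : ∃ u1 : Fin M0.natDegree → F,
      u1 = fun i : Fin M0.natDegree => c1 (z.coeff (i : ℕ)) := ⟨_, rfl⟩
  obtain ⟨u2, hu2⟩ : ∃ u2 : Fin M0.natDegree → F,
      u2 = fun i : Fin M0.natDegree => c2 (z.coeff (i : ℕ)) := ⟨_, rfl⟩
  have hzsum : z = (pv u1).map (algebraMap F E) + C s * (pv u2).map (algebraMap F E) := by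
    ext j
    rw [coeff_add, coeff_C_mul, coeff_map, coeff_map, pv_coeff, pv_coeff]
    by_cases hj : j < M0.natDegree
    · rw [dif_pos hj, dif_pos hj, hu1, hu2]
      rw [hcc (z.coeff j)]
      ring
    · rw [dif_neg hj, dif_neg hj, map_zero, mul_zero, add_zero]
      exact coeff_eq_zero_of_natDegree_lt (by omega)
  have hE0 : ∀ j : ℕ, j < 2 → lm (M0.map (algebraMap F E))
      (k.map (algebraMap F E) * z ^ 2 * X ^ j) = 0 := by
    intro j hj
    interval_cases j
    · rw [pow_zero, mul_one]; exact hz0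
    · rw [pow_one]; exact hz1
  have hsplit : ∀ j : ℕ, j < 2 →
      lm M0 (k * X ^ j * pv u1 * pv u1) + m * lm M0 (k * X ^ j * pv u2 * pv u2) = 0 ∧
      lm M0 (k * X ^ j * pv u1 * pv u2) = 0 := by
    intro j hj
    have h := hE0 j hj
    have hdec : k.map (algebraMap F E) * z ^ 2 * X ^ j =
        (k * X ^ j * pv u1 * pv u1 + C m * (k * X ^ j * pv u2 * pv u2)).map (algebraMap F E) +
        C s * (C 2 * (k * X ^ j * pv u1 * pv u2)).map (algebraMap F E) := by
      have hCd : C (algebraMap F E m) = C s * C s := by rw [← hs, sq, C_mul]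
      conv_lhs => rw [hzsum]
      simp only [Polynomial.map_add, Polynomial.map_mul, Polynomial.map_pow, map_X, map_C, hCd]
      rw [map_ofNat, map_ofNat C]
      ring
    rw [hdec, map_add, lm_C, lm_map _ _ hM, lm_map _ _ hM, map_add, lm_C, lm_C, mul_comm s] at h
    obtain ⟨a1, a2⟩ := huniq _ _ h
    refine ⟨a1, ?_⟩
    rcases mul_eq_zero.1 a2 with h | h
    · exact absurd h h2
    · exact h
  have hAn' : ∀ u : Fin M0.natDegree → F, u ≠ 0 → lm M0 (k * pv u * pv u) ≠ 0 := by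
    intro u hu
    rw [← dot_eq]
    exact hAn u hu
  obtain ⟨s0, s0'⟩ := hsplit 0 (by norm_num)
  obtain ⟨s1, s1'⟩ := hsplit 1 (by norm_num)
  rw [pow_zero, mul_one] at s0 s0'
  rw [pow_one] at s1 s1'
  have hpv0 : pv (0 : Fin M0.natDegree → F) = 0 := by rw [← pvl_apply, map_zero]
  have hu20 : u2 ≠ 0 := by
    intro h0
    rw [h0, hpv0, mul_zero, map_zero, mul_zero, add_zero] at s0
    have hu10 : u1 = 0 := by
      by_contra hne
      exact hAn' u1 hne s0
    apply hzne
    rw [hzsum, h0, hu10, hpv0, Polynomial.map_zero, mul_zero, add_zero]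
  obtain ⟨q, hq⟩ : ∃ q, q = lm M0 (k * pv u2 * pv u2) := ⟨_, rfl⟩
  have hq0 : q ≠ 0 := by rw [hq]; exact hAn' u2 hu20
  have hli : LinearIndependent F ![u1, u2] := by
    rw [LinearIndependent.pair_iff]
    intro x y hxy
    have hpxy : C x * pv u1 + C y * pv u2 = 0 := by
      have := congrArg (pvl F M0.natDegree) hxy
      rw [map_add, map_smul, map_smul, pvl_apply, pvl_apply, map_zero, smul_eq_C_mul,
        smul_eq_C_mul] at this
      exact this
    have hy0 : y = 0 := by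
      have e : k * pv u2 * (C x * pv u1 + C y * pv u2) =
          C x * (k * pv u1 * pv u2) + C y * (k * pv u2 * pv u2) := by ring
      have h := congrArg (lm M0) e
      rw [hpxy, mul_zero, map_zero, map_add, lm_C, lm_C, s0', ← hq, mul_zero, zero_add] at h
      rcases mul_eq_zero.1 h.symm with h | h
      · exact h
      · exact absurd h hq0
    have hx0 : x = 0 := by
      have e : k * pv u1 * (C x * pv u1 + C y * pv u2) =
          C x * (k * pv u1 * pv u1) + C y * (k * pv u1 * pv u2) := by ring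
      have h := congrArg (lm M0) e
      rw [hpxy, mul_zero, map_zero, map_add, lm_C, lm_C, s0', mul_zero, add_zero] at h
      rcases mul_eq_zero.1 h.symm with h | h
      · exact h
      · rw [h, zero_add, ← hq] at s0
        exact absurd s0 (mul_ne_zero hm0 hq0)
    exact ⟨hx0, hy0⟩
  obtain ⟨t, ht⟩ : ∃ t, t = lm M0 (k * X * pv u2 * pv u2) / q := ⟨_, rfl⟩
  have hb : ∀ x y : F[X], lm M0 (k * (X - C t) * x * y) =
      lm M0 (k * X * x * y) - t * lm M0 (k * x * y) := by
    intro x y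
    rw [show k * (X - C t) * x * y = k * X * x * y - C t * (k * x * y) by ring, map_sub, lm_C]
  have b22 : lm M0 (k * (X - C t) * pv u2 * pv u2) = 0 := by
    rw [hb, ← hq, ht, div_mul_cancel₀ _ hq0, sub_self]
  have b12 : lm M0 (k * (X - C t) * pv u1 * pv u2) = 0 := by
    rw [hb, s1', s0', mul_zero, sub_zero]
  have b11 : lm M0 (k * (X - C t) * pv u1 * pv u1) = 0 := by
    rw [hb] at b22 ⊢
    linear_combination s1 - t * s0 - m * b22
  have h11 : lm M0 (k * pv u1 * pv u1) = - m * q := by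
    rw [hq]
    linear_combination s0
  -- the value at t is a square
  have hsqn : IsSquare (nn M0 (k * (X - C t))) := by
    refine plane_sq hGDT Pool.Agent.H86.WT.pf_MDS h2 M0 _ hM h4 ![u1, u2] hli ?_
    have k1 : u1 ⬝ᵥ (gm M0 (k * (X - C t)) *ᵥ u1) = 0 := by rw [dot_eq]; exact b11
    have k2 : u1 ⬝ᵥ (gm M0 (k * (X - C t)) *ᵥ u2) = 0 := by rw [dot_eq]; exact b12
    have k3 : u2 ⬝ᵥ (gm M0 (k * (X - C t)) *ᵥ u1) = 0 := by
      rw [dot_eq, show k * (X - C t) * pv u2 * pv u1 = k * (X - C t) * pv u1 * pv u2 by ring]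
      exact b12
    have k4 : u2 ⬝ᵥ (gm M0 (k * (X - C t)) *ᵥ u2) = 0 := by rw [dot_eq]; exact b22
    intro i j
    fin_cases i <;> fin_cases j
    · exact k1
    · exact k2
    · exact k3
    · exact k4
  obtain ⟨g1, g2, g3, g4, g5, -, -⟩ := hGDT F M0 hM
  have hk0 : nn M0 k ≠ 0 := by
    unfold nn
    refine mul_ne_zero ((g3 k).2 hck) ?_
    rw [g1]
    exact pow_ne_zero _ (by norm_num)
  have e2 : nn M0 (X - C t) = eval t M0 := by
    rw [(hNNR F M0 (X - C t) hM (monic_X_sub_C _)).2, natDegree_X_sub_C, h4]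
    rw [(hGDT F (X - C t) (monic_X_sub_C _)).2.2.2.2.2.2 t rfl M0]
    norm_num
  rw [g4, e2] at hsqn
  have hev0 : eval t M0 ≠ 0 := by
    intro h0
    apply hrat t
    rw [h0]
    exact ⟨0, by ring⟩
  have hsqt : IsSquare (eval t M0) := by
    obtain ⟨x, hx⟩ := hnsq
    obtain ⟨y, hy⟩ := hsqn
    have hx0 : x ≠ 0 := by
      rintro rfl
      exact hk0 (by rw [hx]; ring)
    refine ⟨y / x, ?_⟩
    rw [hx] at hy
    field_simp
    linear_combination hy
  obtain ⟨n0, hn0⟩ := hsqt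
  have hn00 : n0 ≠ 0 := by
    rintro rfl
    exact hev0 (by rw [hn0]; ring)
  obtain ⟨A, B, D, nA, nB, nD, dA, dB, dD, hid⟩ := gram M0 k (pv u1) (pv u2) hM h4 m t q h11
    hq.symm s0' b11 b22 b12 n0 hn0 hn00
  obtain ⟨T, w, c, r1, r2, r3, r4, r5, r6, r7, r8⟩ := divisor M0 k (pv u1) (pv u2) Q A B D m t
    (n0 * q) hM hsep hm hrat hQ h4 (mul_ne_zero hn00 hq0) nA nB nD dA dB dD hid
  exact ⟨T, w, c, t, r1, r2, r3, r4, r5, r6, hev0, ⟨n0, hn0⟩, r7, r8⟩

end Pool.Agent.H39.WT
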